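import Pool.Agent.P.MP_6d14ae_al.S.Lay

/-! The layer induction applied to the brace of a cycle set. -/

set_option autoImplicit false

namespace Pool.Agent.P.MP_6d14ae_al.S

open MulAction J Pointwise

variable {G X E : Type} [Group G] [Finite G] [Fintype X] [MulAction G X] [FaithfulSMul G X]
  [IsPretransitive G X] [AddCommGroup E] [DistribMulAction G E] (κ : G ≃ E)
  (hκ : ∀ g h, κ (g * h) = κ g + g • κ h) (a : X → E) (ha : ∀ (g : G) x, a (g • x) = g • a x)
  (hg : AddSubgroup.closure (Set.range a) = ⊤) {N1 N2 : ℕ} (hG : Nat.card G = N1 * N2)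
  (hc : N1.Coprime N2) (hn : N2.Coprime (Nat.card X))

/-- the action on the elements killed by a number -/
abbrev tact (N : ℕ) : DistribMulAction G (tor E N) where
  smul g v := ⟨g • v.1, tor_smul g v.2⟩
  one_smul v := Subtype.ext (one_smul G v.1)
  mul_smul g h v := Subtype.ext (mul_smul g h v.1)
  smul_zero g := Subtype.ext (smul_zero g)
  smul_add g v w := Subtype.ext (smul_add g v.1 w.1)

include hκ ha hg hG hc hn

theorem base : ∃ ε, 0 < ε ∧ (∀ r : G, r ^ N2 = 1 → r ^ ε = 1) ∧ (∀ v ∈ tor E N2, ε • v = 0) ∧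
    (∀ g : G, (∀ w ∈ sub κ hκ N2, w • κ g = κ g) → g ∈ Subgroup.normalizer
      (sub κ hκ N2 : Set G)) ∧
    (∀ y : X, ε * (stabilizer G (orbit (sub κ hκ N2) y)).relIndex
      (Subgroup.normalizer (sub κ hκ N2 : Set G)) ≤ Nat.card X) ∧
    ∀ (g : G) (p j : ℕ), p.Prime → p ∣ Nat.card X → g ^ p ^ j = 1 → κ g ∈ tor E N1 →
      (∀ w ∈ sub κ hκ N2, w • κ g = κ g) →
      (∀ y : X, g ∈ stabilizer G (orbit (sub κ hκ N2) y)) → g = 1 := by
  have := solv κ hκ
  let _ := tact (G := G) (E := E) N2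
  have hE : Nat.card E = N1 * N2 := (Nat.card_congr κ).symm.trans hG
  have h1 := (card_sub κ hκ hc hG).1
  have h2 := (card_sub κ hκ hc.symm (hG.trans (mul_comm _ _))).1
  obtain ⟨α, β, hαβ⟩ := Nat.isCoprime_iff_coprime.2 hc
  have hd : ∀ e : E, α • N1 • e + β • N2 • e = e := fun e => by
    rw [← natCast_zsmul, ← natCast_zsmul, ← mul_smul, ← mul_smul, ← add_smul, hαβ, one_smul]
  have hk : ∀ e : E, N1 • N2 • e = 0 := fun e => by
    rw [← mul_nsmul', ← hE, card_nsmul_eq_zero']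
  let pr : E →+ tor E N2 := ((zsmulAddGroupHom α : E →+ E).comp
    (nsmulAddMonoidHom N1 : E →+ E)).codRestrict _
    fun e => show N2 • α • N1 • e = 0 by rw [smul_comm, smul_comm N2, hk, smul_zero]
  have hp : ∀ v : tor E N2, pr v = v := fun v => Subtype.ext (by
    have := hd v.1
    rwa [mem_tor.1 v.2, smul_zero, add_zero] at this)
  have hs : ∀ (g : G) e, pr (g • e) = g • pr e := fun g e => Subtype.ext (by
    show α • N1 • g • e = g • α • N1 • e
    rw [smul_comm g, smul_comm g])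
  set W := sub κ hκ N2
  let d : Dat G X (tor E N2) :=
    { c := fun g => pr (κ g), W := W, N1 := N1, N2 := N2, b := fun x => pr (a x)
      hc := fun g h => by rw [hκ, map_add, hs]
      hs := fun v => ⟨κ.symm v, show κ _ ∈ tor E N2 by simp, by simp [hp]⟩
      hW := fun w hw => congrArg Subtype.val (h2 ▸ pow_card_eq_one' (x := (⟨w, hw⟩ : W)))
      hP := fun g e => congrArg Subtype.val (h1 ▸ pow_card_eq_one'
        (x := (⟨g, show N1 • κ g = 0 by
          rw [← hd (κ g), show α • N1 • κ g = 0 from congrArg Subtype.val e, zero_add,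
            smul_comm, hk, smul_zero]⟩ : sub κ hκ N1)))
      hco := hc, n0 := Nat.pos_of_mul_pos_left (hG ▸ Nat.card_pos), hn := hn
      hb := fun g x => by rw [ha, hs]
      hg := by
        rw [show (fun x => pr (a x)) = pr ∘ a from rfl, Set.range_comp,
          ← AddMonoidHom.map_closure, hg]
        exact AddSubgroup.map_top_of_surjective _ fun v => ⟨v, hp v⟩ }
  have hN : ∀ g : G, (∀ w ∈ W, w • κ g = κ g) → g ∈ Subgroup.normalizer (W : Set G) :=
    fun g h => (inv_mem_iff (H := Subgroup.normalizer (W : Set G))).1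
      (Subgroup.mem_normalizer_fintype fun w hw => by
      show κ _ ∈ tor E N2
      rw [inv_inv, mul_assoc, hκ, hκ, h w hw, k_inv κ hκ, smul_add, add_comm, add_neg_cancel_right]
      exact tor_smul _ hw)
  obtain ⟨⟨ε, ε0, h3, h4, h5⟩, h6⟩ := bottom d (Subgroup.normalizer (W : Set G))
    fun g h w hw => (Subgroup.mem_normalizer_iff''.1 h w).1 hw
  refine ⟨ε, ε0, h3, fun v hv => congrArg Subtype.val (h4 ⟨v, hv⟩), hN, fun y => ?_,
    fun g p j hp pn e g1 gw gy => h6 g (hN g gw) (Subtype.ext ?_) fun y => ?_⟩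
  · set U := Subgroup.normalizer (W : Set G)
    set Z := stabilizer G (orbit W y)
    have e1 := Subgroup.relIndex_inf_mul_relIndex (stabilizer G y) Z U
    have e2 : stabilizer G y ⊓ U ≤ Z := fun g h => by
      rw [mem_stabilizer_iff]
      refine Set.eq_of_subset_of_ncard_le ?_ (Set.ncard_smul_set _ _).ge
      rintro _ ⟨_, ⟨w, rfl⟩, rfl⟩
      refine ⟨⟨_, (Subgroup.mem_normalizer_iff.1 h.2 w).1 w.2⟩, ?_⟩
      show (g * w * g⁻¹) • y = g • w.1 • y
      rw [mul_smul, mul_smul, inv_smul_eq_iff.2 (mem_stabilizer_iff.1 h.1).symm]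
    rw [← Subgroup.inf_relIndex_right (_ ⊓ Z), inf_right_comm, inf_eq_left.2 e2,
      Subgroup.inf_relIndex_right] at e1
    have e3 := Subgroup.relIndex_le_of_le_right (H := stabilizer G y) (K := W) (L := Z ⊓ U)
      (fun w hw => ⟨smul_orbit (⟨w, hw⟩ : W) y, Subgroup.le_normalizer hw⟩)
      Subgroup.index_ne_zero_of_finite
    have e4 : ε * _ ≤ Nat.card X * (stabilizer G y).relIndex W := h5 y
    refine Nat.le_of_mul_le_mul_right (le_trans ?_ e4)
      (Nat.pos_of_ne_zero Subgroup.index_ne_zero_of_finite)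
    rw [← e1, mul_assoc, mul_comm (Z.relIndex U)]
    gcongr
  · show α • N1 • κ g = 0
    rw [mem_tor.1 g1, smul_zero]
  · have := Fact.mk hp
    have := Fintype.ofFinite (orbit W y)
    obtain ⟨⟨_, w, rfl⟩, hz⟩ := Equiv.Perm.exists_fixed_point_of_prime (p := p) (n := j)
      (α := orbit W y) (fun h => by
        rw [← Nat.card_eq_fintype_card, Nat.card_coe_set_eq, ← index_stabilizer] at h
        exact hp.one_lt.ne' (Nat.eq_one_of_dvd_coprimes hn
          (h2 ▸ h.trans (Subgroup.index_dvd_card _)) pn))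
      (σ := toPermHom (stabilizer G (orbit W y)) _ ⟨g, gy y⟩)
      (by rw [← map_pow, show (⟨g, gy y⟩ : stabilizer G (orbit W y)) ^ p ^ j = 1 from
        Subtype.ext e, map_one])
    exact ⟨w⁻¹, inv_mem w.2, w • y, congrArg Subtype.val hz, (inv_smul_smul w y).symm⟩

omit hG hc hn in
theorem short [Nonempty X] : ∃ ε, 0 < ε ∧ (∀ p, p.Prime → p ∣ Nat.card X → p * ε ≤ Nat.card X) ∧
    ∀ (g : G) (k : ℕ), k ∣ orderOf g → k.Coprime (Nat.card X) → k ∣ ε := by
  have := solv κ hκ
  have := Finite.of_equiv _ κ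
  obtain ⟨N1, N2, hG, hn, h1⟩ := split_nat (Nat.card X) _ (Nat.card_pos (α := G)).ne'
  have hc : N1.Coprime N2 := Nat.coprime_of_dvd fun q hq e e' =>
    hq.one_lt.ne' (Nat.eq_one_of_dvd_coprimes hn e' (h1 q hq e))
  obtain ⟨ε, ε0, h2, -, h3, h4, h5⟩ := base κ hκ a ha hg hG hc hn
  refine ⟨ε, ε0, fun p hp pn => ?_, fun g k hk kn => ?_⟩
  · have := Fact.mk hp
    obtain ⟨x, hx⟩ := fix _ G X (sub κ hκ N2) rfl (by
      rw [(card_sub κ hκ hc.symm (hG.trans (mul_comm _ _))).1, ← Nat.card_eq_fintype_card]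
      exact hn)
    obtain ⟨j, N, pN, hj⟩ :=
      Nat.exists_eq_pow_mul_and_not_dvd (Nat.card_pos (α := G)).ne' p hp.one_lt.ne'
    have hpj : (p ^ j).Coprime N := (hp.coprime_iff_not_dvd.2 pN).pow_left j
    obtain ⟨g, e⟩ := κ.surjective (N • a x)
    have g1 : g ∈ sub κ hκ (p ^ j) := show p ^ j • κ g = 0 by
      rw [e, ← mul_nsmul', ← hj, Nat.card_congr κ, card_nsmul_eq_zero']
    have g2 : g ^ p ^ j = 1 := congrArg Subtype.val ((card_sub κ hκ hpj hj).1 ▸
      pow_card_eq_one' (x := (⟨g, g1⟩ : sub κ hκ (p ^ j))))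
    have g3 : ∀ w ∈ sub κ hκ N2, w • κ g = κ g := fun w hw => by
      rw [e, smul_comm, ← ha, hx w hw]
    have g4 : g ≠ 1 := fun h => by
      have h6 : tor E N = ⊤ := eq_top_iff.2 (hg ▸ (AddSubgroup.closure_le _).2 (by
        rintro _ ⟨y, rfl⟩
        obtain ⟨u, rfl⟩ := exists_smul_eq G x y
        rw [ha]
        exact tor_smul u (show N • a x = 0 by rw [← e, h, k_one κ hκ])))
      obtain ⟨v, hv⟩ := exists_prime_addOrderOf_dvd_card' (G := E) p (by
        rw [← Nat.card_congr κ]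
        exact pn.trans (index_stabilizer_of_transitive G x ▸ Subgroup.index_dvd_card _))
      exact pN (hv ▸ addOrderOf_dvd_of_nsmul_eq_zero (mem_tor.1 (h6 ▸ trivial)))
    obtain ⟨y, hy⟩ := not_forall.1 (mt (h5 g p j hp pn g2 (by
      obtain ⟨r, hr⟩ := ((hn.coprime_dvd_right pn).symm.pow_left j).dvd_of_dvd_mul_right
        (hG ▸ hj ▸ dvd_mul_right _ _)
      rw [mem_tor, hr, mul_nsmul, show p ^ j • κ g = 0 from g1, smul_zero]) g3) g4)
    refine le_trans ?_ (h4 y)
    rw [mul_comm]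
    refine Nat.mul_le_mul_left _ (le_trans ?_ (Subgroup.relIndex_le_of_le_right
      ((Subgroup.zpowers_le).2 (h3 g g3)) Subgroup.index_ne_zero_of_finite))
    obtain ⟨i, -, hi⟩ := (Nat.dvd_prime_pow hp).1 ((Subgroup.relIndex_dvd_card
      (stabilizer G (orbit (sub κ hκ N2) y)) (Subgroup.zpowers g)).trans
        (Nat.card_zpowers g ▸ orderOf_dvd_of_pow_eq_one g2))
    rw [hi]
    exact Nat.le_self_pow (fun h => hy (Subgroup.relIndex_eq_one.1 (by rw [hi, h, pow_zero])
      (Subgroup.mem_zpowers g))) p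
  · refine Nat.Coprime.dvd_of_dvd_mul_left (Nat.coprime_of_dvd fun q hq e e' =>
      hq.one_lt.ne' (Nat.eq_one_of_dvd_coprimes kn e (h1 q hq e')))
      (hk.trans (orderOf_dvd_of_pow_eq_one ?_))
    rw [pow_mul]
    exact h2 _ (by rw [← pow_mul, ← hG, pow_card_eq_one'])

end Pool.Agent.P.MP_6d14ae_al.S
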