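import Pool.Agent.P.MP_6d14ae_al.S.Lin

/-! The count inside one block of an elementary abelian layer. -/

set_option autoImplicit false

namespace Pool.Agent.P.MP_6d14ae_al.S

theorem cardle {G : Type} [Group G] [Finite G] (D U N : Subgroup G)
    (F : Set (N ⧸ D.subgroupOf N))
    (h : ∀ g ∈ U, ∃ n : N, n.1⁻¹ * g ∈ D ∧ (n : N ⧸ D.subgroupOf N) ∈ F) :
    D.relIndex U ≤ Nat.card F := by
  choose n h1 h2 using h
  refine Nat.card_le_card_of_injective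
    (fun x : U ⧸ D.subgroupOf U => (⟨_, h2 x.out.1 x.out.2⟩ : F)) fun x y e => ?_
  have h3 : (n x.out.1 x.out.2).1⁻¹ * (n y.out.1 y.out.2).1 ∈ D :=
    (QuotientGroup.eq (s := D.subgroupOf N)).1 (congrArg Subtype.val e)
  rw [← x.out_eq', ← y.out_eq', QuotientGroup.eq]
  have := D.mul_mem (D.mul_mem (D.inv_mem (h1 x.out.1 x.out.2)) h3) (h1 y.out.1 y.out.2)
  show x.out.1⁻¹ * y.out.1 ∈ D
  simpa [mul_assoc] using this

theorem blk {G : Type} [Group G] [Finite G] (D N : Subgroup G) [hN : N.Normal] {q o : ℕ}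
    (hq : q.Prime) (o0 : 0 < o) (ho : o.Coprime q)
    (h1 : ∀ a ∈ N, ∀ b ∈ N, a * b * a⁻¹ * b⁻¹ ∈ D) (h2 : ∀ a ∈ N, a ^ q ∈ D) (α : G) (hα : α ∈ D)
    (h3 : α ^ o = 1) : ∃ s, 0 < s ∧ (∀ n ∈ N, n⁻¹ * α ^ s * n ∈ D) ∧ ∀ U : Subgroup G,
      (∀ g ∈ U, (∃ n ∈ N, n⁻¹ * g ∈ D) ∧ g⁻¹ * α * g ∈ D) → s * D.relIndex U ≤ D.relIndex N := by
  have hn : (D.subgroupOf N).Normal := ⟨fun d hd a => by
    have := D.mul_mem (h1 a a.2 d d.2) hd
    show a.1 * d.1 * a.1⁻¹ ∈ D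
    simpa using this⟩
  let _ : CommGroup (N ⧸ D.subgroupOf N) :=
    { (inferInstance : Group (N ⧸ D.subgroupOf N)) with
      mul_comm := by
        rintro ⟨a⟩ ⟨b⟩
        refine QuotientGroup.eq.2 ?_
        have := h1 _ (N.inv_mem b.2) _ (N.inv_mem a.2)
        show (a.1 * b.1)⁻¹ * (b.1 * a.1) ∈ D
        simpa [mul_assoc] using this }
  let f : N ⧸ D.subgroupOf N →* N ⧸ D.subgroupOf N :=
    QuotientGroup.map _ _ (MulAut.conjNormal (H := N) α).toMonoidHom fun d hd =>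
      show α * d.1 * α⁻¹ ∈ D from D.mul_mem (D.mul_mem hα hd) (D.inv_mem hα)
  have hf : ∀ (k : ℕ) (n : N), f^[k] n = (MulAut.conjNormal (α ^ k) n : N) := fun k n => by
    induction k with
    | zero => simp
    | succ k ih =>
      rw [Function.iterate_succ_apply', ih, pow_succ', map_mul]
      rfl
  have he : ∀ (k : ℕ) (n : N), f^[k] n = n ↔ n.1⁻¹ * α ^ k * n.1 ∈ D := fun k n => by
    rw [hf, eq_comm, QuotientGroup.eq, ← D.mul_mem_cancel_right (D.inv_mem (D.pow_mem hα k))]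
    show n.1⁻¹ * (α ^ k * n.1 * (α ^ k)⁻¹) ∈ D ↔ _
    simp only [mul_assoc]
  obtain ⟨s, s0, hs, hc⟩ := lin (V := Additive (N ⧸ D.subgroupOf N)) hq (by
    rintro ⟨a⟩
    exact (QuotientGroup.eq_one_iff (a ^ q)).2 (h2 a a.2)) o0 ho f.toAdditive (by
    rintro ⟨a⟩
    exact (he o a).2 (by rw [h3]; simp))
  refine ⟨s, s0, fun n hn => (he s ⟨n, hn⟩).1 (hs _), fun U hU =>
    (Nat.mul_le_mul_left _ (cardle D U N _ fun g hg => ?_)).trans hc⟩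
  obtain ⟨⟨n, hn, h4⟩, h5⟩ := hU g hg
  refine ⟨⟨n, hn⟩, h4, (he 1 ⟨n, hn⟩).2 ?_⟩
  have := D.mul_mem (D.mul_mem h4 h5) (D.inv_mem h4)
  simpa [mul_assoc] using this

end Pool.Agent.P.MP_6d14ae_al.S
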