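import Pool.Agent.P.MP_6d14ae_al.S.Dat

/-! The exponent of one layer against the orbit lengths in a block. -/

set_option autoImplicit false

namespace Pool.Agent.P.MP_6d14ae_al.S

open MulAction

variable {G X A : Type} [Group G] [MulAction G X] [AddCommGroup A] [DistribMulAction G A]
  {d : Dat G X A}

/-- the cocycle is a homomorphism on a subgroup that acts trivially -/
def chi (d : Dat G X A) (B : AddSubgroup A) (L : Subgroup G) (h : ∀ k ∈ L, ∀ v, k • v - v ∈ B) :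
    L →* Multiplicative (A ⧸ B) :=
  MonoidHom.mk' (fun k => Multiplicative.ofAdd (d.c k : A ⧸ B)) fun k k' => by
    rw [← ofAdd_add, ← QuotientAddGroup.mk_add, eq_comm]
    refine congrArg _ (QuotientAddGroup.eq.2 ?_)
    convert h k k.2 (d.c k') using 1
    rw [Subgroup.coe_mul, d.hc]; abel

theorem chi_one {B : AddSubgroup A} {L : Subgroup G} {h : ∀ k ∈ L, ∀ v, k • v - v ∈ B} {k : L} :
    chi d B L h k = 1 ↔ d.c k ∈ B := QuotientAddGroup.eq_zero_iff _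

theorem count [Finite G] [IsPretransitive G X] {K N : Subgroup G} {B : AddSubgroup A}
    (I : Lay d K B) (hN : N.Normal) (hl : K ≤ N) {q : ℕ} (hq : q.Prime) (hq2 : d.N2.Coprime q)
    (h1 : ∀ a ∈ N, ∀ b ∈ N, a * b * a⁻¹ * b⁻¹ ∈ K) (h2 : ∀ a ∈ N, a ^ q ∈ K)
    (h : ∀ k ∈ KK X N hN, ∀ v, k • v - v ∈ B) (U : Subgroup G)
    (hU : ∀ g ∈ U, ∀ w ∈ d.W, g⁻¹ * w * g ∈ d.W) :
    ∃ t, 0 < t ∧ (∀ r ∈ KK X N hN, r ^ d.N2 = 1 → r ^ t ∈ K) ∧ ∀ y : X,
      t * (DD K I.nor y).relIndex (DD N hN y ⊓ U) ≤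
        (DD K I.nor y).relIndex (DD N hN y) * (DD K I.nor y).relIndex (DD N hN y ⊓ d.W) := by
  classical
  have hL := KK_normal (X := X) N hN
  have hLm : ∀ k ∈ KK X N hN, ∀ y : X, ∃ n ∈ N, k • y = n • y := fun k => mem_KK.1
  have hle : K ≤ KK X N hN := fun n hn => mem_KK.2 fun y => ⟨n, hl hn, rfl⟩
  generalize KK X N hN = L at *
  let χ := chi d B L h
  have hcom : ∀ a ∈ d.W ⊓ L, ∀ b ∈ d.W ⊓ L, a * b * a⁻¹ * b⁻¹ ∈ K := fun a ha b hb =>
    (I.iff _ (mul_mem (mul_mem (mul_mem ha.1 hb.1) (inv_mem ha.1)) (inv_mem hb.1))).1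
      ((chi_one (k := ⟨a, ha.2⟩ * ⟨b, hb.2⟩ * ⟨a, ha.2⟩⁻¹ * ⟨b, hb.2⟩⁻¹) (h := h)).1 (by
        simp only [map_mul, map_inv, mul_inv_cancel_comm, mul_inv_cancel]))
  have ex : ∃ t, 0 < t ∧ ∀ r ∈ L, r ^ d.N2 = 1 → r ^ t ∈ K :=
    ⟨d.N2, d.n0, fun r _ e => e ▸ K.one_mem⟩
  refine ⟨Nat.find ex, (Nat.find_spec ex).1, (Nat.find_spec ex).2, fun y => ?_⟩
  set D := DD K I.nor y
  have KD : K ≤ D := le_DD K I.nor y
  let M := (D.subgroupOf L).normalCore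
  let π := QuotientGroup.mk' M
  have hπ : ∀ k : L, k.1 ∈ K → π k = 1 := fun k hk => (QuotientGroup.eq_one_iff k).2
    fun g => KD (I.nor.conj_mem _ hk g.1)
  let Q := (d.W.subgroupOf L).map π
  let _ : CommGroup Q :=
    { (inferInstance : Group Q) with
      mul_comm := by
        rintro ⟨_, a, ha, rfl⟩ ⟨_, b, hb, rfl⟩
        refine Subtype.ext (commutatorElement_eq_one_iff_mul_comm.1 ?_)
        exact hπ (a * b * a⁻¹ * b⁻¹) (hcom a ⟨ha, a.2⟩ b ⟨hb, b.2⟩) }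
  obtain ⟨⟨_, q0, hq0, rfl⟩, ho⟩ :=
    Monoid.exists_orderOf_eq_exponent (G := Q) Monoid.ExponentExists.of_finite
  have hZ : ∀ r : L, r.1 ^ d.N2 = 1 → r.1 ^ Monoid.exponent Q ∈ D := fun r hr => by
    obtain ⟨w, hw, e⟩ := d.hs (d.c r)
    let w' : L := ⟨w, facN d L hL r.2 hw e⟩
    have e1 : χ w' = χ r := congrArg (fun v : A => Multiplicative.ofAdd (v : A ⧸ B)) e
    have e2 : π w' ^ Monoid.exponent Q = 1 :=
      congrArg Subtype.val (Monoid.pow_exponent_eq_one (⟨_, w', hw, rfl⟩ : Q))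
    let l := (w' ^ Monoid.exponent Q)⁻¹ * r ^ Monoid.exponent Q
    obtain ⟨u, hu, e3⟩ := d.hs (d.c l)
    have hu2 : u ∈ K := (I.iff u hu).1 (e3 ▸ chi_one.1 (show χ l = 1 by simp [l, e1]))
    have e4 : ((⟨u, hle hu2⟩ : L)⁻¹ * l) ^ d.N1 = 1 :=
      Subtype.ext (d.hP (u⁻¹ * l) (by rw [c_div, e3, sub_self, smul_zero]))
    have e5 := congrArg π e4
    rw [map_pow, map_mul, map_inv, hπ _ hu2, map_mul, map_inv, map_pow, e2, inv_one, one_mul,
      one_mul, map_one, ← map_pow] at e5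
    exact (D.subgroupOf L).normalCore_le (cop M d.hco ((QuotientGroup.eq_one_iff _).1 e5) (by
      rw [← pow_mul, mul_comm, pow_mul, show r ^ d.N2 = 1 from Subtype.ext hr, one_pow]
      exact M.one_mem))
  have h3 : Nat.find ex ≤ Monoid.exponent Q := Nat.find_min' ex
    ⟨Monoid.ExponentExists.of_finite.exponent_pos, fun r hr e => I.clo _ fun z => by
      obtain ⟨g, rfl⟩ := exists_smul_eq G y z
      obtain ⟨k, hk, e1⟩ := hZ ⟨_, hL.conj_mem' r hr g⟩ (by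
        have := conj_pow (a := g⁻¹) (b := r) (i := d.N2)
        rwa [inv_inv, e, mul_one, inv_mul_cancel] at this)
      have e2 := conj_pow (a := g⁻¹) (b := r) (i := Monoid.exponent Q)
      rw [inv_inv] at e2
      rw [e2, mul_smul, mul_smul, inv_smul_eq_iff] at e1
      exact ⟨_, I.nor.conj_mem k hk g, by rw [e1, mul_smul, mul_smul, inv_smul_smul]⟩⟩
  have hm := nidx D (d.W ⊓ L) fun a ha b hb => KD (hcom a ha b hb)
  obtain ⟨s, s0, h4, h5⟩ := blk D N hq d.n0 hq2 (fun a ha b hb => KD (h1 a ha b hb))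
    (fun a ha => KD (h2 a ha)) _ (hm q0 ⟨hq0, q0.2⟩)
    (by rw [← pow_mul, mul_comm, pow_mul, d.hW q0 hq0, one_pow])
  have f0 : ∀ S : Subgroup G, D.relIndex S ≠ 0 := fun S => Subgroup.index_ne_zero_of_finite
  have h6 : Monoid.exponent Q ≤ D.relIndex (d.W ⊓ L) * s := by
    refine Nat.le_of_dvd (mul_pos (Nat.pos_of_ne_zero (f0 _)) s0) (ho ▸ orderOf_dvd_of_pow_eq_one
      (Subtype.ext ((map_pow π _ _).symm.trans ((QuotientGroup.eq_one_iff _).2 fun k => ?_))))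
    obtain ⟨n, hn, e⟩ := hLm _ (inv_mem k.2) y
    have e1 : n⁻¹ * k.1⁻¹ ∈ D := inv_mul_DD K I.nor e
    have := D.mul_mem (D.mul_mem (D.inv_mem e1) (h4 n hn)) e1
    show k.1 * q0.1 ^ (D.relIndex (d.W ⊓ L) * s) * k.1⁻¹ ∈ D
    simpa [mul_assoc, pow_mul] using this
  have h7 := h5 (DD N hN y ⊓ U) fun g ⟨⟨n, hn, e⟩, hg⟩ => ⟨⟨n, hn, inv_mul_DD K I.nor e⟩, by
    have := hm _ ⟨hU g hg q0 hq0, hL.conj_mem' _ q0.2 g⟩
    have e2 := conj_pow (a := g⁻¹) (b := q0.1) (i := D.relIndex (d.W ⊓ L))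
    rw [inv_inv] at e2
    rwa [e2] at this⟩
  have h8 := Subgroup.relIndex_le_of_le_right (H := D) (le_DD N hN y) (f0 _)
  have h9 := Subgroup.relIndex_le_of_le_right (H := D) (K := d.W ⊓ L) (L := DD N hN y ⊓ d.W)
    (fun g hg => ⟨hLm g hg.2 y, hg.1⟩) (f0 _)
  calc _ ≤ D.relIndex (d.W ⊓ L) * s * D.relIndex (DD N hN y ⊓ U) :=
        Nat.mul_le_mul_right _ (h3.trans h6)
    _ = s * D.relIndex (DD N hN y ⊓ U) * D.relIndex (d.W ⊓ L) := by ring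
    _ ≤ _ := Nat.mul_le_mul (h7.trans h8) h9

end Pool.Agent.P.MP_6d14ae_al.S
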