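import Pool.Agent.P.MP_6d14ae_al.S.Grp

/-! A cocycle that is bijective on a Hall subgroup; passing from one layer to the next. -/

set_option autoImplicit false

namespace Pool.Agent.P.MP_6d14ae_al.S

/-- the data of the layer induction -/
structure Dat (G X A : Type) [Group G] [MulAction G X] [AddCommGroup A]
    [DistribMulAction G A] where
  c : G → A
  W : Subgroup G
  N1 : ℕ
  N2 : ℕ
  b : X → A
  hc : ∀ g h, c (g * h) = c g + g • c h
  hs : ∀ v, ∃ w ∈ W, c w = v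
  hW : ∀ w ∈ W, w ^ N2 = 1
  hP : ∀ g, c g = 0 → g ^ N1 = 1
  hco : N1.Coprime N2
  n0 : 0 < N2
  hn : N2.Coprime (Nat.card X)
  hb : ∀ (g : G) x, b (g • x) = g • b x
  hg : AddSubgroup.closure (Set.range b) = ⊤

variable {G X A : Type} [Group G] [MulAction G X] [AddCommGroup A] [DistribMulAction G A]
  (d : Dat G X A)

/-- the invariant of a layer -/
structure Lay (K : Subgroup G) (B : AddSubgroup A) : Prop where
  nor : K.Normal
  clo : ∀ g, (∀ y : X, ∃ k ∈ K, g • y = k • y) → g ∈ K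
  sta : ∀ (g : G) v, v ∈ B → g • v ∈ B
  iff : ∀ w ∈ d.W, d.c w ∈ B ↔ w ∈ K
  tri : ∀ k ∈ K, ∀ v, k • v - v ∈ B

theorem c_one : d.c 1 = 0 := by simpa using d.hc 1 1

theorem c_div (g h : G) : d.c (g⁻¹ * h) = g⁻¹ • (d.c h - d.c g) := by
  have := d.hc g (g⁻¹ * h)
  rw [mul_inv_cancel_left] at this
  rw [this, add_sub_cancel_left, inv_smul_smul]

theorem facN (M : Subgroup G) (hM : M.Normal) {m w : G} (hm : m ∈ M) (hw : w ∈ d.W)
    (h : d.c w = d.c m) : w ∈ M := by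
  refine cop M d.hco ?_ (d.hW w hw ▸ M.one_mem)
  have h1 := congrArg (QuotientGroup.mk' M) (d.hP (w⁻¹ * m) (by rw [c_div, h, sub_self, smul_zero]))
  rw [map_pow, map_mul, show QuotientGroup.mk' M m = 1 from (QuotientGroup.eq_one_iff m).2 hm,
    mul_one, map_one, map_inv, inv_pow, inv_eq_one, ← map_pow] at h1
  exact (QuotientGroup.eq_one_iff _).1 h1

theorem ext_b (B : AddSubgroup A) (g : G) (h : ∀ y, g • d.b y - d.b y ∈ B) (v : A) :
    g • v - v ∈ B := by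
  have : B.comap (DistribSMul.toAddMonoidHom A g - AddMonoidHom.id A) = ⊤ :=
    eq_top_iff.2 (d.hg ▸ (AddSubgroup.closure_le _).2 (by rintro _ ⟨y, rfl⟩; exact h y))
  have h1 : v ∈ B.comap (DistribSMul.toAddMonoidHom A g - AddMonoidHom.id A) := this ▸ trivial
  exact h1

variable {d}

theorem triK {K N : Subgroup G} {B : AddSubgroup A} (I : Lay d K B) (hN : N.Normal)
    (h : ∀ w ∈ d.W, w ∈ N → w ∈ K) : ∀ k ∈ KK X N hN, ∀ v, k • v - v ∈ B := by
  have h1 : ∀ n ∈ N, d.c n ∈ B := fun n hn => by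
    obtain ⟨w, hw, e⟩ := d.hs (d.c n)
    exact e ▸ (I.iff w hw).2 (h w hw (facN d N hN hn hw e))
  have h2 : ∀ n ∈ N, ∀ v, n • v - v ∈ B := fun n hn v => by
    obtain ⟨w, -, rfl⟩ := d.hs v
    have h3 := B.sub_mem (I.sta w _ (h1 _ (hN.conj_mem' n hn w))) (h1 n hn)
    rw [mul_assoc, c_div, smul_inv_smul, d.hc] at h3
    convert h3 using 1
    abel
  refine fun k hk => ext_b d B k fun y => ?_
  obtain ⟨n, hn, e⟩ := mem_KK.1 hk y
  rw [← d.hb, e, d.hb]
  exact h2 n hn _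

theorem next {K N : Subgroup G} {B : AddSubgroup A} (I : Lay d K B) (hN : N.Normal) (hl : K ≤ N)
    (h : ∀ k ∈ KK X N hN, ∀ v, k • v - v ∈ B) :
    ∃ B' : AddSubgroup A, Lay d (KK X N hN) B' ∧ ∀ v ∈ B', ∃ q ∈ d.W, q ∈ KK X N hN ∧ d.c q = v := by
  have hK' := KK_normal (X := X) N hN
  have hle : N ≤ KK X N hN := fun n hn => mem_KK.2 fun y => ⟨n, hn, rfl⟩
  let B' : AddSubgroup A :=
    { carrier := {v | ∃ k ∈ KK X N hN, v - d.c k ∈ B}
      zero_mem' := ⟨1, one_mem _, by simp [c_one]⟩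
      add_mem' := by
        rintro v v' ⟨k, hk, e⟩ ⟨k', hk', e'⟩
        refine ⟨k * k', mul_mem hk hk', ?_⟩
        convert B.sub_mem (B.add_mem e e') (h k hk (d.c k')) using 1
        rw [d.hc]; abel
      neg_mem' := by
        rintro v ⟨k, hk, e⟩
        refine ⟨k⁻¹ * 1, mul_mem (inv_mem hk) (one_mem _), ?_⟩
        convert B.sub_mem (h _ (inv_mem hk) (d.c k)) e using 1
        rw [c_div, c_one, zero_sub, smul_neg]; abel }
  have h1 : ∀ w ∈ d.W, d.c w ∈ B' → w ∈ KK X N hN := by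
    rintro w hw ⟨k, hk, e⟩
    obtain ⟨u, hu, e'⟩ := d.hs (d.c k)
    have h2 := (I.iff _ (mul_mem (inv_mem hu) hw)).1 (by rw [c_div, e']; exact I.sta _ _ e)
    simpa using mul_mem (facN d _ hK' hk hu e') (hle (hl h2))
  refine ⟨B', ⟨hK', fun g hg => mem_KK.2 fun y => ?_, ?_,
    fun w hw => ⟨h1 w hw, fun k => ⟨w, k, by simp⟩⟩,
    fun k hk v => ⟨1, one_mem _, by simpa [c_one] using h k hk v⟩⟩, fun v hv => ?_⟩
  · obtain ⟨k, hk, e⟩ := hg y
    exact e ▸ mem_KK.1 hk y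
  · rintro g v ⟨k, hk, e⟩
    refine ⟨_, hK'.conj_mem k hk g, ?_⟩
    have h2 := d.hc (g * k * g⁻¹) g
    rw [inv_mul_cancel_right, d.hc] at h2
    convert B.add_mem (I.sta g _ e) (h _ (hK'.conj_mem k hk g) (d.c g)) using 1
    rw [smul_sub, ← sub_eq_iff_eq_add'] at *
    rw [← h2]; abel
  · obtain ⟨w, hw, rfl⟩ := d.hs v
    exact ⟨w, hw, h1 w hw hv, rfl⟩

end Pool.Agent.P.MP_6d14ae_al.S
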