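import Pool.Agent.P.MP_6d14ae_al.S.Blk

/-! Small group lemmas for the layer induction. -/

set_option autoImplicit false

namespace Pool.Agent.P.MP_6d14ae_al.S

theorem cop {G : Type} [Group G] (D : Subgroup G) {g : G} {a b : ℕ} (h : a.Coprime b)
    (ha : g ^ a ∈ D) (hb : g ^ b ∈ D) : g ∈ D := by
  have h1 := D.mul_mem (D.zpow_mem ha (a.gcdA b)) (D.zpow_mem hb (a.gcdB b))
  rwa [← zpow_natCast, ← zpow_natCast, ← zpow_mul, ← zpow_mul, ← zpow_add, ← Nat.gcd_eq_gcd_ab,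
    h, Nat.cast_one, zpow_one] at h1

theorem nidx {G : Type} [Group G] (D Q : Subgroup G)
    (h : ∀ a ∈ Q, ∀ b ∈ Q, a * b * a⁻¹ * b⁻¹ ∈ D) (g : G) (hg : g ∈ Q) : g ^ D.relIndex Q ∈ D := by
  have hn : (D.subgroupOf Q).Normal := ⟨fun d hd a => by
    have := D.mul_mem (h a a.2 d d.2) hd
    show a.1 * d.1 * a.1⁻¹ ∈ D
    simpa using this⟩
  exact (D.subgroupOf Q).pow_index_mem ⟨g, hg⟩

theorem elem (G : Type) [Group G] [Finite G] [Nontrivial G] [Group.IsSolvable G] :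
    ∃ s : ℕ, s.Prime ∧ ∃ M : Subgroup G, M.Normal ∧ M ≠ ⊥ ∧ (∀ a ∈ M, ∀ b ∈ M, Commute a b) ∧
      ∀ a ∈ M, a ^ s = 1 := by
  obtain ⟨N, ⟨hN, h0⟩, hm⟩ := wellFounded_lt.has_min {N : Subgroup G | N.Normal ∧ N ≠ ⊥}
    ⟨⊤, inferInstance, top_ne_bot⟩
  have h1 : ⁅N, N⁆ = ⊥ := by
    by_contra h
    exact hm _ ⟨inferInstance, h⟩ (Group.IsSolvable.commutator_lt_of_ne_bot h0)
  have h2 : ∀ a ∈ N, ∀ b ∈ N, Commute a b := fun a ha b hb =>
    commutatorElement_eq_one_iff_commute.1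
      (Subgroup.mem_bot.1 (h1 ▸ Subgroup.commutator_mem_commutator ha hb))
  obtain ⟨s, hs, hd⟩ := Nat.exists_prime_and_dvd ((N.one_lt_card_iff_ne_bot).2 h0).ne'
  have := Fact.mk hs
  obtain ⟨x, hx⟩ := exists_prime_orderOf_dvd_card' s hd
  let M : Subgroup G :=
    { carrier := {g | g ∈ N ∧ g ^ s = 1}
      one_mem' := ⟨N.one_mem, one_pow _⟩
      mul_mem' := fun {a b} ha hb => ⟨N.mul_mem ha.1 hb.1, by
        rw [(h2 a ha.1 b hb.1).mul_pow, ha.2, hb.2, one_mul]⟩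
      inv_mem' := fun {a} ha => ⟨N.inv_mem ha.1, by rw [inv_pow, ha.2, inv_one]⟩ }
  refine ⟨s, hs, M, ⟨fun a ha g => ⟨hN.conj_mem a ha.1 g, by
    rw [conj_pow, ha.2, mul_one, mul_inv_cancel]⟩⟩, fun h => ?_,
    fun a ha b hb => h2 a ha.1 b hb.1, fun a ha => ha.2⟩
  have h3 : x.1 ∈ M := ⟨x.2, by rw [← hx, ← Subgroup.coe_pow, pow_orderOf_eq_one]; rfl⟩
  rw [h, Subgroup.mem_bot] at h3
  rw [show x = 1 from Subtype.ext h3, orderOf_one] at hx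
  exact hs.one_lt.ne hx

theorem elem' {G : Type} [Group G] [Finite G] [Group.IsSolvable G] (K : Subgroup G)
    [hK : K.Normal] (h : K ≠ ⊤) : ∃ s : ℕ, s.Prime ∧ ∃ N : Subgroup G, N.Normal ∧ K < N ∧
      (∀ a ∈ N, ∀ b ∈ N, a * b * a⁻¹ * b⁻¹ ∈ K) ∧ ∀ a ∈ N, a ^ s ∈ K := by
  have : Nontrivial (G ⧸ K) := QuotientGroup.nontrivial_iff.2 h
  obtain ⟨s, hs, M, hM, M0, h1, h2⟩ := elem (G ⧸ K)
  refine ⟨s, hs, M.comap (QuotientGroup.mk' K), inferInstance, ⟨fun k hk => ?_, fun h => M0 ?_⟩,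
    fun a ha b hb => (QuotientGroup.eq_one_iff _).1 ?_,
    fun a ha => (QuotientGroup.eq_one_iff _).1 (h2 _ ha)⟩
  · show (k : G ⧸ K) ∈ M
    rw [(QuotientGroup.eq_one_iff k).2 hk]
    exact M.one_mem
  · refine eq_bot_iff.2 ?_
    rintro ⟨g⟩ hg
    exact (QuotientGroup.eq_one_iff g).2 (h hg)
  · exact commutatorElement_eq_one_iff_commute.2 (h1 _ ha _ hb)

variable {G X : Type} [Group G] [MulAction G X]

/-- the stabiliser of the orbit of a point under a normal subgroup -/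
def DD (K : Subgroup G) (hK : K.Normal) (y : X) : Subgroup G where
  carrier := {g | ∃ k ∈ K, g • y = k • y}
  one_mem' := ⟨1, K.one_mem, rfl⟩
  mul_mem' := by
    rintro g g' ⟨k, hk, e⟩ ⟨k', hk', e'⟩
    refine ⟨g * k' * g⁻¹ * k, K.mul_mem (hK.conj_mem _ hk' _) hk, ?_⟩
    simp only [mul_smul, e', ← e, inv_smul_smul]
  inv_mem' := by
    rintro g ⟨k, hk, e⟩
    refine ⟨g⁻¹ * k⁻¹ * g, hK.conj_mem' _ (K.inv_mem hk) _, ?_⟩
    simp only [mul_smul, e, inv_smul_smul]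

/-- the kernel of the action on the orbits of a normal subgroup -/
def KK (X : Type) [MulAction G X] (N : Subgroup G) (hN : N.Normal) : Subgroup G :=
  ⨅ y : X, DD N hN y

theorem mem_KK {N : Subgroup G} {hN : N.Normal} {g : G} :
    g ∈ KK X N hN ↔ ∀ y : X, ∃ n ∈ N, g • y = n • y := Subgroup.mem_iInf

theorem KK_normal (N : Subgroup G) (hN : N.Normal) : (KK X N hN).Normal :=
  ⟨fun k hk g => mem_KK.2 fun y => by
    obtain ⟨n, hn, e⟩ := mem_KK.1 hk (g⁻¹ • y)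
    exact ⟨g * n * g⁻¹, hN.conj_mem _ hn _, by simp only [mul_smul, e]⟩⟩

theorem le_DD (K : Subgroup G) (hK : K.Normal) (y : X) : K ≤ DD K hK y := fun k hk => ⟨k, hk, rfl⟩

theorem inv_mul_DD (K : Subgroup G) (hK : K.Normal) {y : X} {g n : G} (h : g • y = n • y) :
    n⁻¹ * g ∈ DD K hK y := ⟨1, K.one_mem, by rw [mul_smul, h, inv_smul_smul, one_smul]⟩

end Pool.Agent.P.MP_6d14ae_al.S
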