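import Pool.Agent.P.MP_6d14ae_al.S.Cnt

/-! The layer induction. -/

set_option autoImplicit false

namespace Pool.Agent.P.MP_6d14ae_al.S

open MulAction

variable {G X A : Type} [Group G] [MulAction G X] [AddCommGroup A] [DistribMulAction G A]
  {d : Dat G X A}

theorem qdvd [Finite G] [IsPretransitive G X] {K N : Subgroup G} {B : AddSubgroup A}
    (I : Lay d K B) (hN : N.Normal) (hl : K < N) {q : ℕ} (hq : q.Prime)
    (h1 : ∀ a ∈ N, ∀ b ∈ N, a * b * a⁻¹ * b⁻¹ ∈ K) (h2 : ∀ a ∈ N, a ^ q ∈ K) :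
    q ∣ Nat.card X := by
  by_contra h
  refine hl.not_ge fun n hn => I.clo n fun y => ?_
  have KD := le_DD K I.nor y
  have h3 : (DD K I.nor y).relIndex (DD N hN y) = (DD K I.nor y).relIndex N := le_antisymm
    ((cardle _ (DD N hN y) N Set.univ fun g ⟨n, hn, e⟩ => ⟨⟨n, hn⟩, inv_mul_DD K I.nor e, trivial⟩).trans
      (Nat.card_univ).le)
    (Subgroup.relIndex_le_of_le_right (le_DD N hN y) Subgroup.index_ne_zero_of_finite)
  have h4 : (DD K I.nor y).relIndex N ∣ Nat.card X := by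
    rw [← h3, ← index_stabilizer_of_transitive G y]
    exact (Subgroup.relIndex_dvd_index_of_le (H := DD K I.nor y) (K := DD N hN y)
      fun g ⟨k, hk, e⟩ => ⟨k, hl.le hk, e⟩).trans (Subgroup.index_dvd_of_le (K := DD K I.nor y)
        fun g hg => ⟨1, K.one_mem, hg.trans (one_smul _ _).symm⟩)
  exact cop _ (hq.coprime_iff_not_dvd.2 fun e => h (e.trans h4)) (KD (h2 n hn))
    (nidx _ N (fun a ha b hb => KD (h1 a ha b hb)) n hn)

theorem layer [Finite G] [Group.IsSolvable G] [IsPretransitive G X] (U : Subgroup G)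
    (hU : ∀ g ∈ U, ∀ w ∈ d.W, g⁻¹ * w * g ∈ d.W) (K : Subgroup G) :
    ∀ (B : AddSubgroup A) (I : Lay d K B),
    (∃ ε, 0 < ε ∧ (∀ r : G, r ^ d.N2 = 1 → r ^ ε ∈ K) ∧ (∀ v, ε • v ∈ B) ∧ ∀ y : X,
      ε * (DD K I.nor y).relIndex U ≤ (DD K I.nor y).index * (DD K I.nor y).relIndex d.W) ∧
    ∀ a ∈ U, d.c a = 0 → (∀ y : X, ∃ w ∈ d.W, ∃ z, a • z = z ∧ y = w • z) →
      ∀ v, a • v - v ∈ B := by
  induction K using WellFoundedGT.induction with
  | _ K ih =>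
  intro B I
  by_cases hK : K = ⊤
  · subst hK
    have hB : ∀ v, v ∈ B := fun v => by
      obtain ⟨w, hw, rfl⟩ := d.hs v
      exact (I.iff w hw).2 trivial
    refine ⟨⟨1, one_pos, fun _ _ => trivial, fun _ => hB _, fun y => ?_⟩, fun _ _ _ _ _ => hB _⟩
    rw [show DD ⊤ I.nor y = ⊤ from top_le_iff.1 (le_DD _ _ y)]
    simp
  have := I.nor
  obtain ⟨q, hq, N, hN, hl, h1, h2⟩ := elem' K hK
  have hq2 : d.N2.Coprime q := d.hn.coprime_dvd_right (qdvd I hN hl hq h1 h2)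
  have h3 := triK I hN fun w hw hn => cop K hq2 (d.hW w hw ▸ K.one_mem) (h2 w hn)
  obtain ⟨B', I', hB⟩ := next I hN hl.le h3
  obtain ⟨t, t0, h4, h5⟩ := count I hN hl.le hq hq2 h1 h2 h3 U hU
  have hle : N ≤ KK X N hN := fun n hn => mem_KK.2 fun y => ⟨n, hn, rfl⟩
  obtain ⟨⟨ε, ε0, h6, h7, h8⟩, h9⟩ := ih _ (hl.trans_le hle) B' I'
  refine ⟨⟨ε * t, mul_pos ε0 t0, fun r hr => ?_, fun v => ?_, fun y => ?_⟩,
    fun a ha a0 hy => ext_b d B a fun y => ?_⟩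
  · rw [pow_mul]
    exact h4 _ (h6 r hr) (by rw [← pow_mul, mul_comm, pow_mul, hr, one_pow])
  · obtain ⟨u, hu, hu', e⟩ := hB _ (h7 v)
    have e1 := (chi_one (k := ⟨u, hu'⟩ ^ t) (h := h3)).2
      ((I.iff _ (pow_mem hu t)).2 (h4 u hu' (d.hW u hu)))
    rw [map_pow] at e1
    rw [mul_nsmul, ← e, ← QuotientAddGroup.eq_zero_iff, QuotientAddGroup.mk_nsmul]
    exact e1
  · have e : DD _ I'.nor y = DD N hN y := le_antisymm
      (fun g ⟨k, hk, e⟩ => show ∃ n ∈ N, g • y = n • y from e ▸ mem_KK.1 hk y) fun g ⟨n, hn, e⟩ => ⟨n, hle hn, e⟩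
    have h8 := h8 y
    rw [e] at h8
    have l : DD K I.nor y ≤ DD N hN y := fun g ⟨k, hk, e⟩ => ⟨k, hl.le hk, e⟩
    have e1 := fun S => Subgroup.relIndex_inf_mul_relIndex (DD K I.nor y) (DD N hN y) S
    rw [inf_eq_left.2 l] at e1
    rw [← e1 U, ← e1 d.W, ← Subgroup.relIndex_mul_index l]
    have := Nat.mul_le_mul (h5 y) h8
    linarith
  · obtain ⟨w, hw, z, hz, rfl⟩ := hy y
    have e1 : a * w * a⁻¹ ∈ d.W := by simpa using hU _ (inv_mem ha) w hw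
    have e2 : d.c (a * w * a⁻¹) = a • d.c w := by
      have := c_div d a 1
      rw [mul_one, c_one, a0, sub_self, smul_zero] at this
      rw [d.hc, d.hc, a0, this, smul_zero, zero_add, add_zero]
    have e3 : w⁻¹ * (a * w * a⁻¹) ∈ KK X N hN := (I'.iff _ (mul_mem (inv_mem hw) e1)).1 (by
      rw [c_div, e2]; exact I'.sta _ _ (h9 a ha a0 hy _))
    have e4 := h3 _ (I'.nor.conj_mem _ e3 w) (d.b (w • z))
    rw [← d.hb] at e4 ⊢
    convert e4 using 3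
    simp [mul_smul, (inv_smul_eq_iff.2 hz.symm : a⁻¹ • z = z)]

theorem bottom [Finite G] [Group.IsSolvable G] [IsPretransitive G X] [FaithfulSMul G X]
    (d : Dat G X A) (U : Subgroup G) (hU : ∀ g ∈ U, ∀ w ∈ d.W, g⁻¹ * w * g ∈ d.W) :
    (∃ ε, 0 < ε ∧ (∀ r : G, r ^ d.N2 = 1 → r ^ ε = 1) ∧ (∀ v : A, ε • v = 0) ∧ ∀ y : X,
      ε * (stabilizer G y).relIndex U ≤ Nat.card X * (stabilizer G y).relIndex d.W) ∧
    ∀ a ∈ U, d.c a = 0 → (∀ y : X, ∃ w ∈ d.W, ∃ z, a • z = z ∧ y = w • z) → a = 1 := by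
  have i : ∀ w ∈ d.W, d.c w = 0 → w = 1 := fun w hw e =>
    cop ⊥ d.hco (d.hP w e) (d.hW w hw)
  have I : Lay d ⊥ ⊥ := ⟨inferInstance, fun g hg => eq_of_smul_eq_smul (α := X) fun y => by
      obtain ⟨k, rfl, e⟩ := hg y
      exact e, fun g v hv => by simp_all,
    fun w hw => ⟨i w hw, fun e => by rw [show w = 1 from e]; exact c_one d⟩,
    fun k hk v => by simp_all⟩
  obtain ⟨⟨ε, ε0, h1, h2, h3⟩, h4⟩ := layer U hU ⊥ ⊥ I
  refine ⟨⟨ε, ε0, h1, h2, fun y => ?_⟩, fun a ha a0 hy => eq_of_smul_eq_smul (α := X) fun y => ?_⟩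
  · have := h3 y
    rwa [show DD ⊥ I.nor y = stabilizer G y from le_antisymm
      (by rintro g ⟨k, rfl, e⟩; exact e.trans (one_smul _ _))
      fun g hg => ⟨1, rfl, hg.trans (one_smul _ _).symm⟩, index_stabilizer_of_transitive] at this
  · obtain ⟨w, hw, z, hz, rfl⟩ := hy y
    have e1 : a * w * a⁻¹ ∈ d.W := by simpa using hU _ (inv_mem ha) w hw
    have e2 : w⁻¹ * (a * w * a⁻¹) = 1 := i _ (mul_mem (inv_mem hw) e1) (by
      have := c_div d a 1
      rw [mul_one, c_one, a0, sub_self, smul_zero] at this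
      rw [c_div, d.hc, d.hc, a0, this, smul_zero, zero_add, add_zero,
        show a • d.c w - d.c w = 0 from h4 a ha a0 hy _, smul_zero])
    rw [one_smul, ← mul_smul, show a * w = w * a by
      rw [inv_mul_eq_one, eq_mul_inv_iff_mul_eq] at e2; exact e2.symm, mul_smul, hz]

end Pool.Agent.P.MP_6d14ae_al.S
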