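import Pool.Agent.P.MP_6d14ae_al.J.Hall

/-! Order times number of fixed points of a coprime automorphism of an elementary abelian group. -/

set_option autoImplicit false

namespace Pool.Agent.P.MP_6d14ae_al.S

open Polynomial

theorem unip {R : Type} [Ring R] {f : R} {q o : ℕ} (hq : ∀ r : R, q • r = 0) (o0 : 0 < o)
    (ho : o.Coprime q) (hf : f ^ o = 1) (i j : ℕ) (h : (f - 1) * (f ^ i - f ^ j) = 0) :
    f ^ i = f ^ j := by
  obtain ⟨o, rfl⟩ : ∃ o', o = o' + 1 := ⟨o - 1, by omega⟩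
  have h1 : f ^ j * f ^ (o * j) = 1 := by
    rw [← pow_add, show j + o * j = (o + 1) * j by ring, pow_mul, hf, one_pow]
  have h2 : (f - 1) * (f ^ (i + o * j) - 1) = 0 := by
    nth_rewrite 2 [← h1]
    rw [pow_add, ← sub_mul, ← mul_assoc, h, zero_mul]
  have h3 : (f ^ (i + o * j) - 1) * (f ^ (i + o * j) - 1) = 0 := by
    nth_rewrite 1 [← geom_sum_mul]
    rw [mul_assoc, h2, mul_zero]
  have h4 : ∀ m : ℕ, (f ^ (i + o * j)) ^ m = 1 + m • (f ^ (i + o * j) - 1) := fun m => by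
    induction m with
    | zero => simp
    | succ m ih =>
      rw [pow_succ, ih, add_mul, one_mul, smul_mul_assoc, succ_nsmul,
        show (f ^ (i + o * j) - 1) * f ^ (i + o * j) = f ^ (i + o * j) - 1 by
          rw [← sub_eq_zero, ← mul_sub_one, h3]]
      abel
  have h5 : f ^ (i + o * j) = 1 := by
    rw [← orderOf_eq_one_iff]
    refine Nat.eq_one_of_dvd_coprimes ho (orderOf_dvd_of_pow_eq_one ?_)
      (orderOf_dvd_of_pow_eq_one ?_)
    · rw [← pow_mul, mul_comm, pow_mul, hf, one_pow]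
    · rw [h4, hq, add_zero]
  calc f ^ i = f ^ i * (f ^ j * f ^ (o * j)) := by rw [h1, mul_one]
    _ = f ^ (i + o * j) * f ^ j := by simp only [← pow_add]; congr 1; ring
    _ = f ^ j := by rw [h5, one_mul]

theorem lin0 {K V : Type} [Field K] [AddCommGroup V] [Module K V] [Finite V] {q o : ℕ}
    (hV : ∀ v : V, q • v = 0) (o0 : 0 < o) (ho : o.Coprime q) (F : Module.End K V)
    (h1 : F ^ o = 1) : orderOf F * Nat.card {v | F v = v} ≤ Nat.card V := by
  obtain ⟨x, hx⟩ := Module.exists_ker_toSpanSingleton_eq_annihilator (R := K[X])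
    (M := Module.AEval' F)
  obtain ⟨x, rfl⟩ := (Module.AEval'.of F).surjective x
  rw [← Nat.card_fin (orderOf F), ← Nat.card_prod]
  refine Nat.card_le_card_of_injective (fun z : Fin (orderOf F) × {v | F v = v} =>
    (F ^ z.1.1) x + z.2.1) ?_
  rintro ⟨i, c, hc⟩ ⟨j, c', hc'⟩ h
  have h2 : (F ^ i.1) x + c = (F ^ j.1) x + c' := h
  have h3 : aeval F ((X - 1) * (X ^ i.1 - X ^ j.1) : K[X]) =
      (F - 1) * (F ^ i.1 - F ^ j.1) := by simp
  have h4 : ((X - 1) * (X ^ i.1 - X ^ j.1) : K[X]) ∈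
      Module.annihilator K[X] (Module.AEval' F) := by
    rw [← hx, LinearMap.mem_ker, LinearMap.toSpanSingleton_apply, ← Module.AEval.of_aeval_smul,
      h3, map_eq_zero_iff _ (Module.AEval'.of F).injective]
    show F ((F ^ i.1) x - (F ^ j.1) x) - ((F ^ i.1) x - (F ^ j.1) x) = 0
    rw [show (F ^ i.1) x - (F ^ j.1) x = c' - c by rw [sub_eq_sub_iff_add_eq_add, h2, add_comm],
      map_sub, show F c' = c' from hc', show F c = c from hc, sub_self]
  have h5 : i = j := Fin.ext (pow_injOn_Iio_orderOf i.2 j.2 (unip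
    (fun r => LinearMap.ext fun v => hV _) o0 ho h1 _ _ (LinearMap.ext fun v => by
      have := Module.mem_annihilator.1 h4 (Module.AEval'.of F v)
      rwa [← Module.AEval.of_aeval_smul, h3, map_eq_zero_iff _ (Module.AEval'.of F).injective]
        at this)))
  subst h5
  rw [show (⟨c, hc⟩ : {v | F v = v}) = ⟨c', hc'⟩ from Subtype.ext (add_left_cancel h2)]

theorem lin {V : Type} [AddCommGroup V] [Finite V] {q o : ℕ} (hq : q.Prime)
    (hV : ∀ v : V, q • v = 0) (o0 : 0 < o) (ho : o.Coprime q) (f : V →+ V)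
    (hf : ∀ v, f^[o] v = v) :
    ∃ s, 0 < s ∧ (∀ v, f^[s] v = v) ∧ s * Nat.card {v | f v = v} ≤ Nat.card V := by
  have := Fact.mk hq
  have key : ∀ _ : Module (ZMod q) V,
      ∃ s, 0 < s ∧ (∀ v, f^[s] v = v) ∧ s * Nat.card {v | f v = v} ≤ Nat.card V := fun _ => by
    let F : Module.End (ZMod q) V := f.toZModLinearMap q
    have hF : ∀ (n : ℕ) (v : V), (F ^ n) v = f^[n] v := fun n v => by
      rw [Module.End.pow_apply]; rfl
    have h1 : F ^ o = 1 := LinearMap.ext fun v => (hF o v).trans (hf v)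
    exact ⟨orderOf F, (isOfFinOrder_iff_pow_eq_one.2 ⟨o, o0, h1⟩).orderOf_pos,
      fun v => by rw [← hF, pow_orderOf_eq_one]; rfl, lin0 hV o0 ho F h1⟩
  exact key (AddCommGroup.zmodModule hV)

end Pool.Agent.P.MP_6d14ae_al.S
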